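import Pool.Agent.K1H49.PL.Gen

set_option autoImplicit false

/-! Project PLG, piece BTI: the tree of binary sequences of length `< Λ`. -/

namespace Pool.Agent.K1H37.PLG

open Pool.Agent.K1H49.PL

theorem filter_prefix {Λ : Type} [LinearOrder Λ] (x y : Λ) (hxy : x < y) : ∀ l : List Λ,
    l.Pairwise (· < ·) → x ∈ l →
    (l.filter (fun c => decide (c < x)) ++ [x]) <+: l.filter (fun c => decide (c < y))
  | [], _, h => absurd h (by simp)
  | a :: l, hp, h => by
    rw [List.pairwise_cons] at hp
    by_cases hax : a = x
    · subst hax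
      have h1 : (a :: l).filter (fun c => decide (c < a)) = [] := by
        rw [List.filter_eq_nil_iff]
        intro c hc
        rcases List.mem_cons.mp hc with rfl | hc
        · simp
        · have := hp.1 c hc
          simpa using this.le
      rw [h1, List.filter_cons_of_pos (by simpa using hxy)]
      exact ⟨_, rfl⟩
    · have hxl : x ∈ l := by
        rcases List.mem_cons.mp h with h | h
        · exact absurd h.symm hax
        · exact h
      have hax' : a < x := hp.1 x hxl
      rw [List.filter_cons_of_pos (by simpa using hax'),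
        List.filter_cons_of_pos (by simpa using hax'.trans hxy), List.cons_append]
      exact (List.prefix_cons_inj a).mpr (filter_prefix x y hxy l hp.2 hxl)

theorem t_BTI : S_BTI := by
  classical
  intro Λ _ _ _
  refine ⟨?_, ?_, ?_, ?_, ?_, ?_⟩
  · -- trans
    rintro d d' a b c ⟨h1, h2, h3⟩ ⟨k1, k2, k3⟩
    refine ⟨h1.trans k1, fun e he => ?_, ?_⟩
    · rw [k2 e (he.trans h1), h2 e he]
    · rw [k2 _ h1, h3]
  · -- uniq
    rintro d d' a b ⟨-, -, h3⟩ ⟨-, -, k3⟩
    exact h3.symm.trans k3
  · -- lin
    rintro d d' a b c ⟨h1, h2, h3⟩ ⟨k1, k2, k3⟩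
    rcases lt_trichotomy a.1.1 b.1.1 with h | h | h
    · refine Or.inr (Or.inl ⟨b.1.2 a.1.1, h, fun e he => ?_, rfl⟩)
      rw [← k2 e (he.trans h), h2 e he]
    · left
      apply Subtype.ext
      apply Prod.ext
      · exact h
      · funext e
        rcases lt_or_ge e a.1.1 with he | he
        · rw [← h2 e he, k2 e (h ▸ he)]
        · rw [a.2 e he, b.2 e (h ▸ he)]
    · refine Or.inr (Or.inr ⟨a.1.2 b.1.1, h, fun e he => ?_, rfl⟩)
      rw [← h2 e (he.trans h), k2 e he]
  · -- wf
    refine Subrelation.wf (r := InvImage (· < ·) (fun a : TI Λ => a.1.1)) ?_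
      (InvImage.wf _ wellFounded_lt)
    rintro a b ⟨d, h, -, -⟩
    exact h
  · -- fe
    intro P
    obtain ⟨l, hl⟩ : ∃ l, l = (P.image fun a : TI Λ => a.1.1).sort (· ≤ ·) := ⟨_, rfl⟩
    have hlp : l.Pairwise (· < ·) := by
      rw [hl]
      exact (Finset.sortedLT_sort _).pairwise
    have hlm : ∀ a ∈ P, a.1.1 ∈ l := by
      intro a ha
      rw [hl, Finset.mem_sort]
      exact Finset.mem_image_of_mem _ ha
    refine ⟨fun p => (l.filter (fun c => decide (c < p.1.1))).map p.1.2, ?_⟩
    rintro a ha b hb d ⟨h1, h2, h3⟩
    have h4 := filter_prefix a.1.1 b.1.1 h1 l hlp (hlm a ha)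
    have h5 := h4.map b.1.2
    rw [List.map_append, List.map_cons, List.map_nil, h3] at h5
    have h6 : (l.filter (fun c => decide (c < a.1.1))).map b.1.2 =
        (l.filter (fun c => decide (c < a.1.1))).map a.1.2 := by
      refine List.map_congr_left fun c hc => ?_
      have := (List.mem_filter.mp hc).2
      exact h2 c (by simpa using this)
    rw [h6] at h5
    exact h5
  · -- cp
    intro a d
    choose nx hnx using fun x : Λ => exists_gt x
    obtain ⟨s, hs⟩ : ∃ s : ℕ → Λ, s = fun n => nx^[n + 1] a.1.1 := ⟨_, rfl⟩
    have hsm : StrictMono s := by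
      refine strictMono_nat_of_lt_succ fun n => ?_
      rw [hs]
      show nx^[n + 1] a.1.1 < nx^[n + 1 + 1] a.1.1
      rw [Function.iterate_succ_apply' nx (n + 1)]
      exact hnx _
    have hs0 : ∀ n, a.1.1 < s n := by
      intro n
      refine lt_of_lt_of_le ?_ (hsm.monotone (Nat.zero_le n))
      rw [hs]
      exact hnx _
    obtain ⟨F, hF⟩ : ∃ F : Nd → Λ → Bool, F = fun ρ c => if c < a.1.1 then a.1.2 c else
      if c = a.1.1 then d else decide (∃ i, s i = c ∧ ρ[i]? = some true) := ⟨_, rfl⟩
    have hFn : ∀ (ρ : Nd) (b : Λ), s ρ.length ≤ b → F ρ b = false := by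
      intro ρ b hb
      have h1 : a.1.1 < b := (hs0 _).trans_le hb
      rw [hF]
      simp only [if_neg (not_lt.mpr h1.le), if_neg h1.ne']
      rw [decide_eq_false_iff_not]
      rintro ⟨i, h2, h3⟩
      have h4 : i < ρ.length := (List.getElem?_eq_some_iff.mp h3).1
      have h5 := hsm h4
      rw [h2] at h5
      exact absurd hb (not_le.mpr h5)
    refine ⟨fun ρ => ⟨(s ρ.length, F ρ), hFn ρ⟩, ?_, ?_⟩
    · rintro π π' e ⟨t, rfl⟩
      have hlt : s π.length < s (π ++ [e] ++ t).length := by
        apply hsm
        simp only [List.length_append, List.length_cons, List.length_nil]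
        omega
      refine ⟨hlt, fun c hc => ?_, ?_⟩
      · show F (π ++ [e] ++ t) c = F π c
        have hc' : c < s π.length := hc
        rw [hF]
        dsimp only
        congr 1
        congr 1
        rw [decide_eq_decide]
        refine exists_congr fun i => and_congr_right fun hi => ?_
        have h1 : i < π.length := by
          rw [← hi] at hc'
          exact hsm.lt_iff_lt.mp hc'
        rw [List.append_assoc, List.getElem?_append_left h1]
      · show F (π ++ [e] ++ t) (s π.length) = e
        rw [hF]
        simp only [if_neg (not_lt.mpr (hs0 π.length).le), if_neg (hs0 π.length).ne']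
        have h1 : (∃ i, s i = s π.length ∧ (π ++ [e] ++ t)[i]? = some true) ↔ e = true := by
          constructor
          · rintro ⟨i, h1, h2⟩
            have h3 : i = π.length := hsm.injective h1
            subst h3
            rw [List.append_assoc, List.getElem?_append_right le_rfl] at h2
            simpa using h2
          · intro he
            refine ⟨π.length, rfl, ?_⟩
            rw [List.append_assoc, List.getElem?_append_right le_rfl]
            simp [he]
        rw [Bool.eq_iff_iff, decide_eq_true_iff]
        exact h1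
    · intro π
      refine ⟨hs0 _, fun c hc => ?_, ?_⟩
      · show F π c = a.1.2 c
        rw [hF]
        simp only [if_pos hc]
      · show F π a.1.1 = d
        rw [hF]
        simp

end Pool.Agent.K1H37.PLG
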